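import Pool.Agent.MultiBoard.CofCase
import Pool.Agent.MultiBoard.RegCase

set_option autoImplicit false

/-! MP_e811a4_lc: lower bounds, provable in ZFC, for the number of boards `κ` that makes all
`κ`-board Gale-Stewart games on `λ` determined: `κ ≥ λ`, `κ ≥ cf (2 ^ ℵ₀)`, and
`κ ≥ cf (2 ^ μ)` for all infinite `μ ≤ λ` with `2 ^ μ = μ ^ ℵ₀`. -/

namespace Pool.Agent.Results.MP_e811a4_lc.BoardLowerBounds

open Cardinal Pool.Agent.MultiBoard

universe u

theorem cof_le {L K M : Type u} [Nonempty K] [Nonempty M] (hML : #M ≤ #L) (c : Cardinal.{u})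
    (h1 : #(List M → M) = c) (h2 : #(ℕ → M) = c) (hD : Det L K) : c.ord.cof ≤ #K := by
  by_contra hlt
  rw [not_le] at hlt
  obtain ⟨j⟩ : Nonempty (M ↪ L) := by rwa [← Cardinal.le_def]
  obtain ⟨π, hπ⟩ : ∃ π : L → M, ∀ m, π (j m) = m :=
    ⟨Function.invFun j, Function.leftInverse_invFun j.injective⟩
  exact not_det_cof (Classical.arbitrary K) j π hπ (Classical.arbitrary M)
    (by rw [h1, h2]) (by rw [h2]; exact hlt) hD

theorem mk_strategies (M : Type u) (μ : Cardinal.{u}) (hM : #M = μ) (h0 : ℵ₀ ≤ μ)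
    (h : (2 : Cardinal.{u}) ^ μ = μ ^ (ℵ₀ : Cardinal.{u})) :
    #(List M → M) = 2 ^ μ ∧ #(ℕ → M) = 2 ^ μ := by
  have : Infinite M := by
    rw [Cardinal.infinite_iff, hM]; exact h0
  constructor
  · rw [← Cardinal.power_def, Cardinal.mk_list_eq_mk, hM, Cardinal.power_self_eq h0]
  · rw [h, Cardinal.mk_arrow]
    simp [hM]

theorem part2 {L K : Type u} [Nonempty K] (hL : 2 ≤ #L) (hD : Det L K) :
    ((2 : Cardinal.{u}) ^ (ℵ₀ : Cardinal.{u})).ord.cof ≤ #K := by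
  refine cof_le (M := ULift.{u} Bool) (by simpa using hL) _ ?_ ?_ hD
  · rw [Cardinal.mk_arrow]
    simp
  · rw [Cardinal.mk_arrow]
    simp

theorem part1 {L K : Type u} [Nonempty K] (hL : 2 ≤ #L) (hD : Det L K) : #L ≤ #K := by
  by_contra hlt
  rw [not_le] at hlt
  have h2 := part2 hL hD
  have h1 : ℵ₀ < #K := lt_of_lt_of_le (Cardinal.lt_cof_ord_power le_rfl Cardinal.one_lt_two) h2
  exact not_det_reg (Classical.arbitrary K) (Order.succ #K) (Cardinal.isRegular_succ h1.le)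
    (h1.trans (Order.lt_succ _)) (Order.lt_succ _) (Order.succ_le_of_lt hlt) hD

/-- If all `K`-board Gale-Stewart games on `L` are determined, then `#K ≥ #L`,
`#K ≥ cf (2 ^ ℵ₀)`, and `#K ≥ cf (2 ^ μ)` for all infinite cardinals `μ ≤ #L` such that
`2 ^ μ = μ ^ ℵ₀`. -/
theorem result : ∀ (L K : Type u) [Nonempty K], 2 ≤ #L → Det L K →
    #L ≤ #K ∧ ((2 : Cardinal.{u}) ^ (ℵ₀ : Cardinal.{u})).ord.cof ≤ #K ∧
      ∀ μ : Cardinal.{u}, ℵ₀ ≤ μ → μ ≤ #L → (2 : Cardinal.{u}) ^ μ = μ ^ (ℵ₀ : Cardinal.{u}) →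
        ((2 : Cardinal.{u}) ^ μ).ord.cof ≤ #K := by
  intro L K _ hL hD
  refine ⟨part1 hL hD, part2 hL hD, fun μ h0 hμ h => ?_⟩
  have hM : #(μ.out) = μ := Cardinal.mk_out μ
  obtain ⟨h1, h2⟩ := mk_strategies μ.out μ hM h0 h
  have : Nonempty μ.out := by
    rw [← Cardinal.mk_ne_zero_iff, hM]
    intro h
    rw [h] at h0
    exact absurd h0 (not_le.mpr Cardinal.aleph0_pos)
  exact cof_le (hM.le.trans hμ) _ h1 h2 hD

end Pool.Agent.Results.MP_e811a4_lc.BoardLowerBounds
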