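import Pool.Agent.MP_e811a4_lc.F
import Pool.Agent.MP_e811a4_lc.G
import Pool.Agent.MBG.X3

/-! MP_e811a4_lc, Q1: the statement of the problem is independent of ZFC. There is a model of ZFC
in which for every `λ ≥ 2` there is a `κ ≥ 1` such that all `κ`-board Gale–Stewart games on `λ` are
determined, and there is a model of ZFC in which there is no such `κ` for `λ = ω₁`. -/

set_option linter.unusedVariables false
set_option linter.unusedSectionVars false

namespace Pool.Agent.Results.MP_e811a4_lc.Independence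

open Pool.Agent.MPe811a4 Pool.Agent.MP63050e Pool.Agent.SetModel

/-- The statement of Q1, read in the model `(M, E)` with `w = ω`: for every set `L` with at least
two elements there is a nonempty set `K` such that for every set `A` the `K`-board Gale–Stewart
game on `L` with payoff set `A` is determined. -/
def Q1 {M : Type*} (E : M → M → Prop) (w : M) : Prop :=
  ∀ L, (∃ a b, E a L ∧ E b L ∧ a ≠ b) → ∃ K, (∃ r, E r K) ∧ ∀ A, Determined E w L K A

/-- There is a model of ZFC in which for `L = ω₁` there is a set `A` of sequences of length `ω` in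
`L` such that for every nonempty set `K` neither player has a winning strategy in the `K`-board
Gale–Stewart game on `L` with payoff set `A`. -/
theorem fails : ∃ (M : Type 1) (E : M → M → Prop), IsModelZFC E ∧
    ∃ w L A, IsOmega E w ∧ IsOmega1 E L ∧ (∃ a b, E a L ∧ E b L ∧ a ≠ b) ∧
      (∀ x, E x A → IsFun E x w L) ∧ ∀ K, (∃ r, E r K) → ¬ Determined E w L K A := by
  obtain ⟨Ω, Θ, iΩ, wΩ, iΘ, wΘ, P⟩ := exists_pair
  obtain ⟨B, iB, em, h1, h2, h3, h4⟩ := BVM.exists_completion (Cnd Ω)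
  have hem : DenseEmb em := ⟨h1, h2, h3, h4⟩
  obtain ⟨h, -⟩ := BVM.Ult.exists_of_ne_bot (h1 ⟨[]⟩)
  obtain ⟨A, hA⟩ := exists_payoff B Θ
  have htwo : ∃ a b : Θ, a ≠ b := by
    have : Nontrivial Θ := Cardinal.one_lt_iff_nontrivial.1
      ((Cardinal.one_lt_aleph0.trans_le (Cardinal.aleph0_le_aleph 1)).trans P.cardΘ)
    exact exists_pair_ne Θ
  obtain ⟨a, b, hab⟩ := htwo
  refine ⟨BVM.Mdl h, BVM.E h, BVM.mod_zfc h, BVM.Mdl.mk h (omN B),
    BVM.Mdl.mk h (BVM.vNset B Θ), BVM.Mdl.mk h A, isOmega h, isOmega1 P hem h,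
    ⟨_, _, BVM.E_vN_vNset a, BVM.E_vN_vNset b, fun hh => hab (BVM.vN_inj.1 hh)⟩,
    fun x hx => ((hA h x).1 hx).1, ?_⟩
  rintro K ⟨r, hr⟩ hdet
  obtain ⟨K, rfl⟩ := K.exists_rep
  obtain ⟨r, rfl⟩ := r.exists_rep
  obtain ⟨ι, e, c, hK, hs⟩ := exists_nice K
  rw [← hK h] at hr hdet
  obtain ⟨F, hF⟩ := exists_moves (BVM.BName.mk ι e c) (BVM.vNset B Θ)
  obtain ⟨S, hS⟩ := exists_seqSet F
  rcases hdet (BVM.Mdl.mk h F) (BVM.Mdl.mk h S) (BVM.Mdl.mk h (evN B)) (hF h) (hS h) (isEvens h)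
    with ⟨σ, hσ, hwin⟩ | ⟨τ, hτ, hwin⟩
  · obtain ⟨σ, rfl⟩ := σ.exists_rep
    obtain ⟨f, hf⟩ := claim2 P hem hs hF hS (clop_isFun σ S F) (fun h hh => hh)
    obtain ⟨hf1, hf2, hf3⟩ := hf h hσ
    obtain ⟨r, x, hr, hx, hxA⟩ := hwin _ hf1 hf2
    exact hf3 r x hr hx ((hA h x).1 hxA).2
  · obtain ⟨τ, rfl⟩ := τ.exists_rep
    obtain ⟨f, x, hf⟩ := claim1 P hem hs hF hS
      (Pool.Agent.MP7e7dde.Clop.and (clop_isFun τ S F) (clop_mem r (BVM.BName.mk ι e c)))
      (fun h hh => hh.1) (fun h hh => hh.2)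
    obtain ⟨hf1, hf2, hf3, hf4⟩ := hf h ⟨hτ, hr⟩
    exact hwin _ hf1 hf2 _ _ hr hf3 ((hA h _).2 ⟨hf3.1, hf4⟩)

/-- The statement of Q1 is independent of ZFC. (1) There is a model of ZFC in which it holds.
(2) There is a model of ZFC in which it fails, and in which moreover for `L = ω₁` there is a set `A`
of sequences of length `ω` in `L` such that for every nonempty set `K` neither player has a winning
strategy in the `K`-board Gale–Stewart game on `L` with payoff set `A`. -/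
theorem result :
    (∃ (M : Type 2) (E : M → M → Prop), IsModelZFC E ∧ ∃ w, IsOmega E w ∧ Q1 E w) ∧
    (∃ (M : Type 1) (E : M → M → Prop), IsModelZFC E ∧ ∃ w, IsOmega E w ∧ ¬ Q1 E w ∧
      ∃ L A, IsOmega1 E L ∧ (∀ x, E x A → IsFun E x w L) ∧
        ∀ K, (∃ r, E r K) → ¬ Determined E w L K A) := by
  refine ⟨Pool.Agent.MBG.exists_model, ?_⟩
  obtain ⟨M, E, h1, w, L, A, h2, h3, h4, h5, h6⟩ := fails
  refine ⟨M, E, h1, w, h2, fun hQ => ?_, L, A, h3, h5, h6⟩
  obtain ⟨K, hK, hdet⟩ := hQ L h4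
  exact h6 K hK (hdet A)

end Pool.Agent.Results.MP_e811a4_lc.Independence
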